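import Pool.Agent.P8H90.AP.DefsA
import Pool.Agent.P8H44.AP.EK

/-!
# Project AP, package EKA: the functions `ga b l a` are E-functions
-/

set_option autoImplicit false

open PowerSeries

namespace Pool.Agent.P8H76.AP

open Pool.Agent.P8H90.AP
open Pool.Agent.P8H44.AP (exists_bd isIntegral_pow_mul)

section

variable {K : Type} [Field K] [CharZero K]

lemma EFK_ga (ι : K →+* ℂ) (hι : ∀ a : K, IsAlgebraic ℚ (ι a)) (b : ℚ) (hb0 : 0 ≤ b) (l : ℕ) (a : K) :
    EFK ι (ga b l a) := by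
  obtain ⟨D, B, hB, hD, hDB, hb, hi⟩ := exists_bd ι hι a
  obtain ⟨p, hp⟩ : ∃ p : ℕ, b.num = (p : ℤ) := ⟨b.num.toNat, (Int.toNat_of_nonneg (Rat.num_nonneg.2 hb0)).symm⟩
  obtain ⟨q, hq⟩ : ∃ q : ℕ, q = b.den := ⟨_, rfl⟩
  have hq0 : 0 < q := by rw [hq]; exact b.den_pos
  have hqK : (q : K) ≠ 0 := by exact_mod_cast hq0.ne'
  have hbK : (b : K) = (p : K) / (q : K) := by
    rw [Rat.cast_def, hp, hq]
    simp
  have hmb : ∀ m : ℕ, (m : K) + (b : K) = ((q * m + p : ℕ) : K) / (q : K) := by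
    intro m
    rw [hbK]
    push_cast
    field_simp
  have hck : ∀ m, ((m.factorial : K) * coeff m (ga b l a)) =
      if m = 0 then 0 else -(-a) ^ m / ((m : K) + (b : K)) ^ l := by
    intro m
    rw [ga, coeff_mk]
    have : (m.factorial : K) ≠ 0 := by exact_mod_cast m.factorial_ne_zero
    split_ifs
    · rw [mul_zero]
    · rw [← mul_div_assoc, mul_div_mul_left _ _ this]
  set E : ℝ := (2 ^ 8 : ℝ) ^ ((q + p) * l) with hE
  have hb1 : (1 : ℝ) ≤ E := one_le_pow₀ (by norm_num)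
  set C : ℝ := B * E with hC
  have hC1 : 1 ≤ C := one_le_mul_of_one_le_of_one_le hB hb1
  have hBC : B ≤ C := le_mul_of_one_le_right (by linarith) hb1
  refine ⟨C, hC1, fun m => ?_, fun m => ⟨D ^ m * Nat.lcmUpto (q * m + p) ^ l, ?_, ?_, fun j hj => ?_⟩⟩
  · rw [hck]
    split_ifs with h
    · rw [map_zero, norm_zero]; positivity
    · have hm1 : (1 : ℝ) ≤ ((m : ℝ) + (b : ℝ)) ^ l := by
        refine one_le_pow₀ ?_
        have h1 : (1 : ℝ) ≤ (m : ℝ) := by exact_mod_cast Nat.pos_of_ne_zero h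
        have h2 : (0 : ℝ) ≤ (b : ℝ) := by exact_mod_cast hb0
        linarith
      have hn : ‖(((m : ℂ) + (b : ℂ)) ^ l)‖ = ((m : ℝ) + (b : ℝ)) ^ l := by
        have : ((m : ℂ) + (b : ℂ)) = (((m : ℝ) + (b : ℝ) : ℝ) : ℂ) := by push_cast; rfl
        have h2 : (0 : ℝ) ≤ (b : ℝ) := by exact_mod_cast hb0
        rw [norm_pow, this, Complex.norm_real, Real.norm_eq_abs, abs_of_nonneg (by positivity)]
      rw [map_div₀, map_neg, map_pow, map_neg, map_pow, map_add, map_natCast, map_ratCast, norm_div, norm_neg, norm_pow,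
        norm_neg, hn]
      refine (div_le_self (by positivity) hm1).trans ?_
      exact (pow_le_pow_left₀ (norm_nonneg _) (hb.trans hBC) m).trans (pow_le_pow_right₀ hC1 (by omega))
  · exact Nat.mul_pos (by positivity) (pow_pos (Nat.lcmUpto_pos _) _)
  · push_cast
    have h2 : (Nat.lcmUpto (q * m + p) : ℝ) ^ l ≤ E ^ (m + 1) := by
      calc (Nat.lcmUpto (q * m + p) : ℝ) ^ l ≤ ((2 ^ 8 : ℝ) ^ (q * m + p)) ^ l :=
            pow_le_pow_left₀ (by positivity) (Pool.Agent.R352.E.lcm_bound _) l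
        _ ≤ ((2 ^ 8 : ℝ) ^ ((q + p) * (m + 1))) ^ l := by
            refine pow_le_pow_left₀ (by positivity) (pow_le_pow_right₀ (by norm_num) ?_) l
            nlinarith [Nat.zero_le (p * m)]
        _ = E ^ (m + 1) := by
            rw [hE, ← pow_mul (2 ^ 8 : ℝ) ((q + p) * (m + 1)) l, ← pow_mul (2 ^ 8 : ℝ) ((q + p) * l) (m + 1)]
            congr 1
            ring
    calc (D : ℝ) ^ m * (Nat.lcmUpto (q * m + p) : ℝ) ^ l ≤ B ^ (m + 1) * E ^ (m + 1) :=
          mul_le_mul ((pow_le_pow_left₀ (by positivity) hDB m).trans (pow_le_pow_right₀ hB (by omega))) h2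
            (by positivity) (by positivity)
      _ = C ^ (m + 1) := by rw [hC, mul_pow B]
  · rw [hck]
    split_ifs with h
    · rw [mul_zero]; exact isIntegral_zero
    · have hpos : 1 ≤ q * j + p := by
        have : 1 ≤ q * j := Nat.mul_pos hq0 (Nat.pos_of_ne_zero h)
        omega
      have hd : q * j + p ∣ Nat.lcmUpto (q * m + p) := by
        refine Finset.dvd_lcm (f := id) (Finset.mem_Icc.2 ⟨hpos, ?_⟩)
        have := Nat.mul_le_mul_left q hj
        omega
      obtain ⟨c, hc⟩ := hd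
      have hj0 : ((q * j + p : ℕ) : K) ≠ 0 := by
        exact_mod_cast (by omega : q * j + p ≠ 0)
      have e : ((D ^ m * Nat.lcmUpto (q * m + p) ^ l : ℕ) : K) * (-(-a) ^ j / ((j : K) + (b : K)) ^ l) =
          ((-(-1) ^ j * (c : ℤ) ^ l * (q : ℤ) ^ l : ℤ) : K) * ((D : K) ^ m * a ^ j) := by
        rw [hc, hmb j, div_pow]
        generalize hN : ((q * j + p : ℕ) : K) = N at hj0 ⊢
        rw [Nat.cast_mul, Nat.cast_pow, Nat.cast_pow, Nat.cast_mul, hN, neg_pow a, mul_pow]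
        push_cast
        field_simp
      rw [e]
      exact (isIntegral_intCast _).mul (isIntegral_pow_mul hi hj)

end

/-- Package EKA. -/
theorem eka : S_EKA := by
  intro K _ _ ι hι b l a hb
  exact EFK_ga ι hι b hb l a

end Pool.Agent.P8H76.AP
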