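import Pool.Agent.P8H90.AP.DefsA
import Pool.Agent.P8H44.AP.EK
import Pool.Agent.P8H44.AP.EV

/-!
# Project AP, package FNA: algebraic independence of the values
-/

set_option autoImplicit false

open PowerSeries

namespace Pool.Agent.P8H76.AP

open Pool.Agent.P8H90.AP
open Pool.Agent.P8H44.AP (ek ev_thm)

section

variable {K : Type} [Field K] [CharZero K]

lemma efk_one (ι : K →+* ℂ) (hι : ∀ a : K, IsAlgebraic ℚ (ι a)) : EFK ι (1 : K⟦X⟧) := by
  have := (ek K ι hι).2.2.1 1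
  rwa [map_one] at this

lemma ev_one (ι : K →+* ℂ) : evK ι (1 : K⟦X⟧) = 1 := by
  have := (ev_thm K ι).2.2.1 1
  rwa [map_one, map_one] at this

lemma prod_ev {ι : K →+* ℂ} (hι : ∀ a : K, IsAlgebraic ℚ (ι a)) {τ : Type} (S : Finset τ) (f : τ → K⟦X⟧)
    (h : ∀ i ∈ S, EFK ι (f i)) :
    EFK ι (∏ i ∈ S, f i) ∧ evK ι (∏ i ∈ S, f i) = ∏ i ∈ S, evK ι (f i) := by
  classical
  induction S using Finset.induction_on with
  | empty => simpa using ⟨efk_one ι hι, ev_one ι⟩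
  | insert a S ha ih =>
    have h1 := ih fun i hi => h i (Finset.mem_insert_of_mem hi)
    rw [Finset.prod_insert ha, Finset.prod_insert ha]
    have h2 := h a (Finset.mem_insert_self a S)
    exact ⟨(ek K ι hι).2.1 _ _ h2 h1.1, by rw [(ev_thm K ι).2.1 _ _ h2 h1.1, h1.2]⟩

lemma pow_ev {ι : K →+* ℂ} (hι : ∀ a : K, IsAlgebraic ℚ (ι a)) (f : K⟦X⟧) (h : EFK ι f) (n : ℕ) :
    EFK ι (f ^ n) ∧ evK ι (f ^ n) = evK ι f ^ n := by
  have := prod_ev hι (Finset.range n) (fun _ => f) fun _ _ => h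
  simpa using this

lemma sum_ev {ι : K →+* ℂ} (hι : ∀ a : K, IsAlgebraic ℚ (ι a)) {τ : Type} (S : Finset τ) (c : τ → K) (f : τ → K⟦X⟧)
    (h : ∀ i ∈ S, EFK ι (f i)) :
    EFK ι (∑ i ∈ S, c i • f i) ∧ evK ι (∑ i ∈ S, c i • f i) = ∑ i ∈ S, ι (c i) * evK ι (f i) := by
  classical
  induction S using Finset.induction_on with
  | empty =>
    have h0 := (ek K ι hι).2.2.1 0
    have h1 := (ev_thm K ι).2.2.1 0
    rw [map_zero] at h0 h1
    rw [map_zero] at h1
    simpa using ⟨h0, h1⟩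
  | insert a S ha ih =>
    have h1 := ih fun i hi => h i (Finset.mem_insert_of_mem hi)
    rw [Finset.sum_insert ha, Finset.sum_insert ha]
    have h2 := h a (Finset.mem_insert_self a S)
    have h3 := (ek K ι hι).2.2.1 (c a)
    have h4 : EFK ι (c a • f a) := by
      rw [PowerSeries.smul_eq_C_mul]
      exact (ek K ι hι).2.1 _ _ h3 h2
    have h5 : evK ι (c a • f a) = ι (c a) * evK ι (f a) := by
      rw [PowerSeries.smul_eq_C_mul, (ev_thm K ι).2.1 _ _ h3 h2, (ev_thm K ι).2.2.1]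
    exact ⟨(ek K ι hι).1 _ _ h4 h1.1, by rw [(ev_thm K ι).1 _ _ h4 h1.1, h5, h1.2]⟩

omit [CharZero K] in
lemma ev_ex (ι : K →+* ℂ) (a : K) : evK ι (ex a) = Complex.exp (ι a) := by
  unfold evK ex
  rw [Complex.exp_eq_exp_ℂ, NormedSpace.exp_eq_tsum_div]
  refine tsum_congr fun m => ?_
  rw [coeff_mk, map_div₀, map_pow, map_natCast]

lemma ev_ga (ι : K →+* ℂ) (b : ℚ) (l : ℕ) (a : K) : evK ι (ga b l a) = Ea b l (ι a) := by
  unfold evK ga Ea
  refine tsum_congr fun m => ?_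
  rw [coeff_mk]
  split_ifs with h
  · rw [map_zero]
  · rw [map_div₀, map_neg, map_pow, map_neg, map_mul, map_natCast, map_pow, map_add, map_natCast, map_ratCast]

lemma ev_mon (hEKA : S_EKA) {ι : K →+* ℂ} (hι : ∀ a : K, IsAlgebraic ℚ (ι a)) (T : Finset (ℚ × K)) (L : ℕ)
    (hT : ∀ t ∈ T, 0 ≤ t.1) (p : K × ((Fin L × T) →₀ ℕ)) :
    EFK ι (monA T L p) ∧ evK ι (monA T L p) = Complex.exp (ι p.1) *
      ∏ v : Fin L × T, Ea v.2.1.1 (v.1.1 + 1) (ι v.2.1.2) ^ p.2 v := by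
  have h1 : ∀ v : Fin L × T, EFK ι (ga v.2.1.1 (v.1.1 + 1) v.2.1.2 : K⟦X⟧) := fun v =>
    hEKA K ι hι _ _ _ (hT _ v.2.2)
  have h2 := prod_ev hι Finset.univ (fun v : Fin L × T => ga v.2.1.1 (v.1.1 + 1) v.2.1.2 ^ p.2 v)
    fun v _ => (pow_ev hι _ (h1 v) _).1
  have h3 := (ek K ι hι).2.2.2.1 p.1
  refine ⟨(ek K ι hι).2.1 _ _ h3 h2.1, ?_⟩
  unfold monA
  rw [(ev_thm K ι).2.1 _ _ h3 h2.1, h2.2, ev_ex]
  congr 1
  refine Finset.prod_congr rfl fun v _ => ?_
  rw [(pow_ev hι _ (h1 v) _).2, ev_ga]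

end

/-- finitely many algebraic numbers lie in a Galois number field -/
lemma exists_field (A : Finset ℂ) (hA : ∀ a ∈ A, IsAlgebraic ℚ a) :
    ∃ (K : Type) (_ : Field K) (_ : NumberField K) (_ : IsGalois ℚ K) (ι : K →+* ℂ), ∀ a ∈ A, ∃ x : K, ι x = a := by
  classical
  set M : Polynomial ℚ := ∏ a ∈ A, minpoly ℚ a with hM
  have hM0 : M ≠ 0 := Finset.prod_ne_zero_iff.2 fun a ha => minpoly.ne_zero (hA a ha).isIntegral
  let F := IntermediateField.adjoin ℚ (M.rootSet ℂ)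
  have hs : M.IsSplittingField ℚ F :=
    IntermediateField.adjoin_rootSet_isSplittingField (IsAlgClosed.splits _)
  have hf : FiniteDimensional ℚ F := Polynomial.IsSplittingField.finiteDimensional F M
  have hn : Normal ℚ F := Normal.of_isSplittingField M
  have hnf : NumberField F := ⟨⟩
  have hg : IsGalois ℚ F := ⟨⟩
  refine ⟨F, inferInstance, hnf, hg, algebraMap F ℂ, fun a ha => ?_⟩
  have h1 : a ∈ M.rootSet ℂ := by
    rw [Polynomial.mem_rootSet]
    refine ⟨hM0, ?_⟩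
    rw [hM, map_prod]
    exact Finset.prod_eq_zero ha (minpoly.aeval ℚ a)
  exact ⟨⟨a, IntermediateField.subset_adjoin ℚ _ h1⟩, rfl⟩

/-- the main step, over a Galois number field which contains all the numbers -/
lemma core (hTW : S_TWA) (hNM : S_NMA) (hEKA : S_EKA) (K : Type) [Field K] [NumberField K] [IsGalois ℚ K] (ι : K →+* ℂ)
    (I : Type) (β : I → ℂ) (hβ : LinearIndependent ℚ β) (P : MvPolynomial (I ⊕ JA) ℚ) (hP : P ≠ 0)
    (h1 : ∀ i, Sum.inl i ∈ P.vars → ∃ x : K, ι x = β i) (h2 : ∀ j, Sum.inr j ∈ P.vars → ∃ x : K, ι x = j.1.2.2) :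
    MvPolynomial.aeval (Sum.elim (fun i => Complex.exp (β i)) valA) P ≠ 0 := by
  classical
  intro hP0
  have hι : ∀ a : K, IsAlgebraic ℚ (ι a) := by
    intro a
    have h : IsAlgebraic ℚ a := Algebra.IsAlgebraic.isAlgebraic a
    obtain ⟨p, hp, h⟩ := h
    refine ⟨p, hp, ?_⟩
    rw [Polynomial.aeval_def] at h ⊢
    have h3 := congrArg ι h
    rw [Polynomial.hom_eval₂, map_zero] at h3
    rw [← h3]
    congr 1
    exact Subsingleton.elim _ _
  choose! βK hβK using h1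
  choose! zK hzK using h2
  set V := P.vars with hV
  -- the finite set of pairs
  set R : Finset K := ((Finset.univ : Finset (K ≃ₐ[ℚ] K)) ×ˢ V.toRight).image fun p => p.1 (zK p.2) with hR
  set T : Finset (ℚ × K) := (V.toRight.image fun j => j.1.2.1) ×ˢ R with hT
  have hR0 : ∀ a ∈ R, a ≠ 0 := by
    intro a ha h0
    rw [hR, Finset.mem_image] at ha
    obtain ⟨⟨σ, j⟩, hj, rfl⟩ := ha
    rw [Finset.mem_product] at hj
    have h3 : zK j = 0 := by
      have := congrArg σ.symm h0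
      simpa using this
    have h4 := hzK j (Finset.mem_toRight.1 hj.2)
    rw [h3, map_zero] at h4
    exact j.2.2.2.2 h4.symm
  have hTb : ∀ t ∈ T, 0 ≤ t.1 ∧ t.1 < 1 ∧ t.2 ≠ 0 := by
    intro t ht
    rw [hT, Finset.mem_product, Finset.mem_image] at ht
    obtain ⟨⟨j, -, hj⟩, ht2⟩ := ht
    refine ⟨?_, ?_, hR0 _ ht2⟩
    · rw [← hj]; exact j.2.1
    · rw [← hj]; exact j.2.2.1
  have hTσ : ∀ σ : K ≃ₐ[ℚ] K, ∀ t ∈ T, (t.1, σ t.2) ∈ T := by
    intro σ t ht
    rw [hT, Finset.mem_product] at ht ⊢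
    refine ⟨ht.1, ?_⟩
    have h3 := ht.2
    rw [hR, Finset.mem_image] at h3 ⊢
    obtain ⟨⟨τ, j⟩, hj, hj2⟩ := h3
    rw [Finset.mem_product] at hj
    refine ⟨(σ * τ, j), Finset.mem_product.2 ⟨Finset.mem_univ _, hj.2⟩, ?_⟩
    simp only [AlgEquiv.mul_apply]
    rw [← hj2]
  set L : ℕ := V.toRight.sup (fun j => j.1.1) + 1 with hL
  -- the index attached to a pair
  have hjt : ∀ v : Fin L × T, 0 ≤ v.2.1.1 ∧ v.2.1.1 < 1 ∧ IsAlgebraic ℚ (ι v.2.1.2) ∧ ι v.2.1.2 ≠ 0 := fun v =>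
    ⟨(hTb _ v.2.2).1, (hTb _ v.2.2).2.1, hι _, fun h => (hTb _ v.2.2).2.2 (ι.injective (by rw [h, map_zero]))⟩
  let jt : Fin L × T → JA := fun v => ⟨((v.1 : ℕ), v.2.1.1, ι v.2.1.2), hjt v⟩
  have hjti : Function.Injective jt := by
    intro v w h
    have h3 := congrArg Subtype.val h
    simp only [jt, Prod.mk.injEq] at h3
    obtain ⟨a, b, c⟩ := h3
    refine Prod.ext (Fin.ext a) (Subtype.ext (Prod.ext b (ι.injective c)))
  have hjts : ∀ j ∈ V.toRight, ∃ v, jt v = j := by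
    intro j hj
    have hz := hzK j (Finset.mem_toRight.1 hj)
    have hl : j.1.1 < L := Nat.lt_succ_of_le (Finset.le_sup (f := fun j : JA => j.1.1) hj)
    have ht : (j.1.2.1, zK j) ∈ T := by
      rw [hT, Finset.mem_product, hR]
      refine ⟨Finset.mem_image.2 ⟨j, hj, rfl⟩, Finset.mem_image.2 ⟨(1, j), ?_, rfl⟩⟩
      exact Finset.mem_product.2 ⟨Finset.mem_univ _, hj⟩
    refine ⟨(⟨j.1.1, hl⟩, ⟨_, ht⟩), Subtype.ext ?_⟩
    simp only [jt, hz]
  -- the exponents
  let lam : ((I ⊕ JA) →₀ ℕ) → K := fun s => ∑ i ∈ V.toLeft, (s (Sum.inl i) : K) * βK i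
  let u : ((I ⊕ JA) →₀ ℕ) → ((Fin L × T) →₀ ℕ) := fun s => Finsupp.equivFunOnFinite.symm fun v => s (Sum.inr (jt v))
  have hlam : ∀ s, ι (lam s) = ∑ i ∈ V.toLeft, (s (Sum.inl i) : ℂ) * β i := by
    intro s
    simp only [lam, map_sum, map_mul, map_natCast]
    refine Finset.sum_congr rfl fun i hi => ?_
    rw [hβK i (Finset.mem_toLeft.1 hi)]
  have hsup : ∀ s ∈ P.support, ∀ k, k ∉ V → s k = 0 := by
    intro s hs k hk
    by_contra h
    exact hk ((MvPolynomial.mem_vars_iff_mem_support _).2 ⟨s, hs, Finsupp.mem_support_iff.2 h⟩)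
  -- distinct exponents give distinct monomials
  have hinj : Function.Injective (fun s : P.support => (lam s.1, u s.1)) := by
    intro s t hst
    simp only [Prod.mk.injEq] at hst
    obtain ⟨ha, hb⟩ := hst
    refine Subtype.ext (Finsupp.ext fun k => ?_)
    by_cases hk : k ∈ V
    swap
    · rw [hsup _ s.2 k hk, hsup _ t.2 k hk]
    rcases k with i | j
    · have h3 : ∑ i ∈ V.toLeft, ((s.1 (Sum.inl i) : ℚ) - (t.1 (Sum.inl i) : ℚ)) • β i = 0 := by
        have h4 := congrArg ι ha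
        rw [hlam, hlam, ← sub_eq_zero, ← Finset.sum_sub_distrib] at h4
        rw [← h4]
        refine Finset.sum_congr rfl fun i _ => ?_
        rw [Rat.smul_def]
        push_cast
        ring
      have h4 := linearIndependent_iff'.1 hβ _ _ h3 i (Finset.mem_toLeft.2 hk)
      exact_mod_cast sub_eq_zero.1 h4
    · obtain ⟨v, rfl⟩ := hjts j (Finset.mem_toRight.2 hk)
      exact DFunLike.congr_fun hb v
  have hli : LinearIndependent (Polynomial K) fun s : P.support => monA T L (lam s.1, u s.1) :=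
    (hTW K T L hTb).comp _ hinj
  set v : K⟦X⟧ := ∑ s : P.support, ((P.coeff s.1 : ℚ) : K) • monA T L (lam s.1, u s.1) with hv
  have hv0 : v ≠ 0 := by
    intro h
    have h3 : ∑ s : P.support, (Polynomial.C ((P.coeff s.1 : ℚ) : K)) • monA T L (lam s.1, u s.1) = 0 := by
      rw [← h, hv]
      refine Finset.sum_congr rfl fun s _ => ?_
      rw [Algebra.smul_def, PowerSeries.smul_eq_C_mul, PowerSeries.algebraMap_apply', Algebra.algebraMap_self]
      simp
    have h4 := Fintype.linearIndependent_iff.1 hli _ h3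
    obtain ⟨s, hs⟩ := MvPolynomial.support_nonempty.2 hP
    have h5 := h4 ⟨s, hs⟩
    rw [Polynomial.C_eq_zero] at h5
    exact (MvPolynomial.mem_support_iff.1 hs) (by exact_mod_cast h5)
  have hvs : v ∈ Submodule.span K (Set.range (monA T L)) :=
    Submodule.sum_mem _ fun s _ => Submodule.smul_mem _ _ (Submodule.subset_span ⟨_, rfl⟩)
  refine hNM K ι T L hTb hTσ v hvs hv0 ?_
  rw [hv, (sum_ev hι _ _ _ fun s _ => (ev_mon hEKA hι T L (fun t ht => (hTb t ht).1) _).1).2, ← hP0,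
    MvPolynomial.aeval_def, MvPolynomial.eval₂_eq, Finset.univ_eq_attach,
    Finset.sum_attach P.support (fun s => ι ((P.coeff s : ℚ) : K) * evK ι (monA T L (lam s, u s)))]
  refine Finset.sum_congr rfl fun s hs => ?_
  rw [(ev_mon hEKA hι T L (fun t ht => (hTb t ht).1) _).2]
  congr 1
  · rw [map_ratCast, eq_ratCast]
  have h3 : ∏ k ∈ s.support, Sum.elim (fun i => Complex.exp (β i)) valA k ^ s k =
      ∏ k ∈ V, Sum.elim (fun i => Complex.exp (β i)) valA k ^ s k := by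
    refine Finset.prod_subset ?_ ?_
    · intro k hk
      exact (MvPolynomial.mem_vars_iff_mem_support _).2 ⟨s, hs, hk⟩
    · intro k _ hk
      rw [Finsupp.notMem_support_iff.1 hk, pow_zero]
  rw [h3, Finset.prod_sum_eq_prod_toLeft_mul_prod_toRight]
  congr 1
  · rw [hlam, Complex.exp_sum]
    refine Finset.prod_congr rfl fun i _ => ?_
    rw [Complex.exp_nat_mul]
    rfl
  · symm
    have h4 : ∏ j ∈ V.toRight, valA j ^ s (Sum.inr j) =
        ∏ j ∈ (Finset.univ : Finset (Fin L × T)).image jt, valA j ^ s (Sum.inr j) := by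
      refine Finset.prod_subset ?_ ?_
      · intro j hj
        obtain ⟨w, rfl⟩ := hjts j hj
        exact Finset.mem_image_of_mem _ (Finset.mem_univ _)
      · intro j _ hj
        rw [hsup s hs (Sum.inr j) (fun h => hj (Finset.mem_toRight.2 h)), pow_zero]
    refine h4.trans ?_
    rw [Finset.prod_image fun a _ b _ h => hjti h]
    rfl

/-- Package FNA. -/
theorem fna (hTW : S_TWA) (hNM : S_NMA) (hEKA : S_EKA) : S_FNA := by
  classical
  intro I β hβa hβ
  rw [algebraicIndependent_iff]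
  intro P hP0
  by_contra hP
  have hA : ∀ a ∈ P.vars.image (Sum.elim β fun j : JA => j.1.2.2), IsAlgebraic ℚ a := by
    intro a ha
    obtain ⟨k, -, rfl⟩ := Finset.mem_image.1 ha
    rcases k with i | j
    · exact hβa i
    · exact j.2.2.2.1
  obtain ⟨K, _, _, _, ι, hι⟩ := exists_field _ hA
  exact core hTW hNM hEKA K ι I β hβ P hP (fun i hi => hι _ (Finset.mem_image.2 ⟨_, hi, rfl⟩))
    (fun j hj => hι _ (Finset.mem_image.2 ⟨_, hj, rfl⟩)) hP0

end Pool.Agent.P8H76.AP
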